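import Pool.Agent.TH158.E8.Final

set_option autoImplicit false

/-!
MP_56b8f5_nt: an unconditional lower bound for the eighth moment of the zeta function on the
critical line. The mean of `|ζ(1/2+it)|^8` over every interval `[U, U + H]` in `[0, T]` with
`H ≥ T / (log T)^α`, `α < 1/2`, is at least `900 a_4 / 16! (log T)^16` once `T` is large. With
`U = 0`, `H = T` this is `M_4(T) ≥ 900 a_4 / 16! (log T)^16` (the conjecture has `24024`).
-/

namespace Pool.Agent.Results.MP_56b8f5_nt.EighthMomentLower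

open Filter MeasureTheory

/-- the mean of `|ζ(1/2+it)|^(2k)` over `[U, U + H]`; the `M_k(T)` of the problem is
`mean k 0 T` -/
noncomputable def mean (k : ℕ) (U H : ℝ) : ℝ :=
  1 / H * ∫ t in U..(U + H), ‖riemannZeta (1 / 2 + t * Complex.I)‖ ^ (2 * k)

/-- the arithmetic factor `a_k` -/
noncomputable def a (k : ℕ) : ℝ :=
  ∏' p : Nat.Primes, ((1 - 1 / (p : ℝ)) ^ (k ^ 2) *
    ∑' m : ℕ, ((m + k - 1).choose m : ℝ) ^ 2 * (1 / (p : ℝ)) ^ m)

theorem a4_eq : Pool.Agent.H306R2.aF 4 = a 4 := by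
  have e := Pool.Agent.H306R2.aF_nat 4 (by norm_num)
  have e3 : ((4 : ℕ) : ℝ) = 4 := by norm_num
  rw [e3] at e
  rw [e]
  unfold a
  refine tprod_congr fun p => ?_
  norm_num

theorem result (α : ℝ) (hα0 : 0 ≤ α) (hα : α < 1 / 2) :
    ∀ᶠ T : ℝ in atTop, ∀ U H : ℝ, 0 ≤ U → U + H ≤ T → T / Real.log T ^ α ≤ H →
      900 * a 4 / (Nat.factorial 16 : ℝ) * Real.log T ^ 16 ≤ mean 4 U H := by
  rw [← a4_eq]
  filter_upwards [Pool.Agent.TH158.E8.Final.eighth_all α hα0 hα, eventually_gt_atTop 1]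
    with T h hT U H hU hUH hH
  have hL : 0 < Real.log T := Real.log_pos hT
  have hH0 : 0 < H := lt_of_lt_of_le (by positivity) hH
  unfold mean
  rw [one_div, inv_mul_eq_div, le_div_iff₀ hH0]
  refine le_trans (le_of_eq ?_) (h U H hU hUH hH)
  ring

/-- `M_4(T)` itself -/
theorem M4_lower : ∀ᶠ T : ℝ in atTop,
    900 * a 4 / (Nat.factorial 16 : ℝ) * Real.log T ^ 16 ≤
      1 / T * ∫ t in (0 : ℝ)..T, ‖riemannZeta (1 / 2 + t * Complex.I)‖ ^ 8 := by
  filter_upwards [result 0 le_rfl (by norm_num)] with T h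
  have h1 := h 0 T le_rfl (by simp) (by simp)
  unfold mean at h1
  simpa using h1

end Pool.Agent.Results.MP_56b8f5_nt.EighthMomentLower
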